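import Pool.Agent.H95.La2
import Pool.Agent.H95.LaMDefs

set_option autoImplicit false

namespace Pool.Agent.Results.MP_fbf57d_al.Yes
open Pool.Agent.H95.LaMDefs Filter Topology Matrix

variable {𝕜 : Type} [RCLike 𝕜] {n : ℕ} {c : Fin n → Fin n → Fin n → 𝕜}

noncomputable def bil (c : Fin n → Fin n → Fin n → 𝕜) :
    (Fin n → 𝕜) →ₗ[𝕜] (Fin n → 𝕜) →ₗ[𝕜] (Fin n → 𝕜) :=
  LinearMap.mk₂ 𝕜 (mul c)
    (fun x x' y => by
      funext k
      simp [mul, mul_add, add_mul, Finset.sum_add_distrib])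
    (fun a x y => by
      funext k
      simp only [mul, Pi.smul_apply, smul_eq_mul, Finset.mul_sum]
      exact Finset.sum_congr rfl fun i _ => Finset.sum_congr rfl fun j _ => by ring)
    (fun x y y' => by
      funext k
      simp [mul, mul_add, Finset.sum_add_distrib])
    (fun a x y => by
      funext k
      simp only [mul, Pi.smul_apply, smul_eq_mul, Finset.mul_sum]
      exact Finset.sum_congr rfl fun i _ => Finset.sum_congr rfl fun j _ => by ring)

theorem inv_app (g : GL (Fin n) 𝕜) (x : Fin n → 𝕜) : (g⁻¹).val *ᵥ (g.val *ᵥ x) = x := by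
  rw [mulVec_mulVec, Units.inv_mul, one_mulVec]

theorem app_inv (g : GL (Fin n) 𝕜) (x : Fin n → 𝕜) : g.val *ᵥ ((g⁻¹).val *ᵥ x) = x := by
  rw [mulVec_mulVec, Units.mul_inv, one_mulVec]

theorem aut_one : IsAut c 1 := fun x y => by simp

theorem aut_mul {g h : GL (Fin n) 𝕜} (hg : IsAut c g) (hh : IsAut c h) : IsAut c (g * h) :=
  fun x y => by
    simp only [Units.val_mul, ← mulVec_mulVec]
    rw [hh, hg]

theorem aut_inv {g : GL (Fin n) 𝕜} (hg : IsAut c g) : IsAut c g⁻¹ := fun x y => by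
  have := hg ((g⁻¹).val *ᵥ x) ((g⁻¹).val *ᵥ y)
  rw [app_inv, app_inv] at this
  rw [← this, inv_app]

theorem orb (x y : Fin n → 𝕜) :
    (∃ g, Pool.Agent.H95.LaDefs.IsAut (bil c) g ∧ y = g.val x) ↔
      ∃ g, IsAut c g ∧ y = g.val *ᵥ x := by
  constructor
  · rintro ⟨g, hg, rfl⟩
    let G : GL (Fin n) 𝕜 :=
      ⟨LinearMap.toMatrix' g.val.toLinearMap, LinearMap.toMatrix' (g⁻¹).val.toLinearMap,
        by
          rw [← LinearMap.toMatrix'_mul, ← LinearMap.toMatrix'_one]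
          congr 1
          exact LinearMap.ext fun v => Pool.Agent.H95.La.app_inv g v,
        by
          rw [← LinearMap.toMatrix'_mul, ← LinearMap.toMatrix'_one]
          congr 1
          exact LinearMap.ext fun v => Pool.Agent.H95.La.inv_app g v⟩
    have hG : ∀ v, G.val *ᵥ v = g.val v := fun v => LinearMap.toMatrix'_mulVec _ v
    refine ⟨G, fun a b => ?_, (hG x).symm⟩
    rw [hG, hG, hG]
    exact hg a b
  · rintro ⟨g, hg, rfl⟩
    refine ⟨⟨LinearMap.toContinuousLinearMap (Matrix.toLin' g.val),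
      LinearMap.toContinuousLinearMap (Matrix.toLin' (g⁻¹).val),
      ContinuousLinearMap.ext fun v => app_inv g v,
      ContinuousLinearMap.ext fun v => inv_app g v⟩, fun a b => hg a b, rfl⟩

theorem result (𝕜 : Type) [RCLike 𝕜] (n : ℕ) (c : Fin n → Fin n → Fin n → 𝕜) :
    (∀ A, IsLocAut c A → IsUnit A) ∧
    ∃ H : Subgroup (GL (Fin n) 𝕜), (∀ g, g ∈ H ↔ IsLocAut c g.val) ∧
      IsClosed (H : Set (GL (Fin n) 𝕜)) := by
  constructor
  · intro A hA
    refine Matrix.mulVec_injective_iff_isUnit.1 fun x y hxy => ?_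
    obtain ⟨g, -, h⟩ := hA (x - y)
    rw [← sub_eq_zero, ← inv_app g (x - y), ← h, mulVec_sub, hxy, sub_self, mulVec_zero]
  have hinv : ∀ φ : GL (Fin n) 𝕜, IsLocAut c φ.val → IsLocAut c (φ⁻¹).val := by
    intro φ hφ y
    obtain ⟨ψ, h1, h2⟩ := hφ ((φ⁻¹).val *ᵥ y)
    rw [app_inv] at h2
    exact ⟨ψ⁻¹, aut_inv h1, by conv_rhs => rw [h2, inv_app]⟩
  refine ⟨{ carrier := {φ | IsLocAut c φ.val}
            mul_mem' := fun {a b} ha hb x => ?_
            one_mem' := fun x => ⟨1, aut_one, rfl⟩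
            inv_mem' := fun {a} ha => hinv a ha }, fun _ => Iff.rfl, ?_⟩
  · obtain ⟨ψ, h1, h2⟩ := hb x
    obtain ⟨ψ', k1, k2⟩ := ha (b.val *ᵥ x)
    refine ⟨ψ' * ψ, aut_mul k1 h1, ?_⟩
    simp only [Units.val_mul, ← mulVec_mulVec]
    rw [k2, h2]
  refine isClosed_of_closure_subset fun φ hφ x => ?_
  have c1 : ∀ y, Continuous fun ψ : GL (Fin n) 𝕜 => ψ.val *ᵥ y := fun y =>
    Units.continuous_val.matrix_mulVec continuous_const
  have c2 : ∀ y, Continuous fun ψ : GL (Fin n) 𝕜 => (ψ⁻¹).val *ᵥ y := fun y =>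
    Units.continuous_coe_inv.matrix_mulVec continuous_const
  have h1 : φ.val *ᵥ x ∈ closure {y | ∃ g, IsAut c g ∧ y = g.val *ᵥ x} := by
    have := map_mem_closure (t := {y | ∃ g, IsAut c g ∧ y = g.val *ᵥ x}) (c1 x) hφ
      fun ψ hψ => hψ x
    exact this
  have h2 : x ∈ closure {y | ∃ g, IsAut c g ∧ y = g.val *ᵥ (φ.val *ᵥ x)} := by
    have := map_mem_closure (t := {y | ∃ g, IsAut c g ∧ y = g.val *ᵥ (φ.val *ᵥ x)})
      (c2 (φ.val *ᵥ x)) hφ fun ψ hψ => hinv ψ hψ _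
    rwa [inv_app] at this
  have lc := Pool.Agent.H95.La.loc_closed (m := bil c) x
  simp only [orb] at lc
  obtain ⟨z, z1, g, hg, rfl⟩ := mem_closure_iff_nhds.1 h2 _ lc
  have cg : Continuous fun v : Fin n → 𝕜 => g.val *ᵥ v :=
    continuous_const.matrix_mulVec continuous_id
  obtain ⟨g', hg', h3⟩ := z1 (map_mem_closure cg h1 (by
    rintro _ ⟨h, hh, rfl⟩
    exact ⟨g * h, aut_mul hg hh, by rw [Units.val_mul, mulVec_mulVec]⟩))
  refine ⟨g⁻¹ * g', aut_mul (aut_inv hg) hg', ?_⟩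
  rw [Units.val_mul, ← mulVec_mulVec, ← h3, inv_app]

end Pool.Agent.Results.MP_fbf57d_al.Yes
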